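import Pool.Agent.K1H35.LK.Defs

/-!
# Task T1 of MP_5b16f0_gt: properties of the homomorphisms `psiK`
-/

set_option autoImplicit false

namespace Pool.Agent.K1H36.LK

open Pool.Agent.K1H35.LK

theorem br_top : Subgroup.closure (Set.range s) = (⊤ : Subgroup Br) :=
  PresentedGroup.closure_range_of rels

theorem br_ind {P : Br → Prop} (hs : ∀ i, P (s i)) (h1 : P 1) (hm : ∀ x y, P x → P y → P (x * y))
    (hi : ∀ x, P x → P x⁻¹) (y : Br) : P y := by
  have hy : y ∈ Subgroup.closure (Set.range s) := by rw [br_top]; trivial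
  induction hy using Subgroup.closure_induction with
  | mem x hx => obtain ⟨i, rfl⟩ := hx; exact hs i
  | one => exact h1
  | mul x y _ _ hx hy => exact hm x y hx hy
  | inv x _ hx => exact hi x hx

theorem hom_ext {G : Type} [Group G] {f g : Br →* G} (h : ∀ i, f (s i) = g (s i)) : f = g :=
  PresentedGroup.ext h

theorem bn_ind {N : ℕ} {P : Br → Prop} (hs : ∀ i, i + 1 < N → P (s i)) (h1 : P 1)
    (hm : ∀ x y, P x → P y → P (x * y)) (hi : ∀ x, P x → P x⁻¹) (y : Br) (hy : y ∈ BN N) : P y := by
  induction hy using Subgroup.closure_induction with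
  | mem x hx => obtain ⟨i, h, rfl⟩ := hx; exact hs i h
  | one => exact h1
  | mul x y _ _ hx hy => exact hm x y hx hy
  | inv x _ hx => exact hi x hx

theorem bc_ind {m N : ℕ} {P : Br → Prop} (hs : ∀ i, m ≤ i → i + 1 < N → P (s i)) (h1 : P 1)
    (hm : ∀ x y, P x → P y → P (x * y)) (hi : ∀ x, P x → P x⁻¹) (y : Br) (hy : y ∈ BC m N) :
    P y := by
  induction hy using Subgroup.closure_induction with
  | mem x hx => obtain ⟨i, h, h', rfl⟩ := hx; exact hs i h h'
  | one => exact h1
  | mul x y _ _ hx hy => exact hm x y hx hy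
  | inv x _ hx => exact hi x hx

theorem s_mem_BN {i N : ℕ} (h : i + 1 < N) : s i ∈ BN N :=
  Subgroup.subset_closure ⟨i, h, rfl⟩

theorem s_mem_BC {m i N : ℕ} (h : m ≤ i) (h' : i + 1 < N) : s i ∈ BC m N :=
  Subgroup.subset_closure ⟨i, h, h', rfl⟩

theorem BN_mono {N N' : ℕ} (h : N ≤ N') : BN N ≤ BN N' :=
  Subgroup.closure_mono (by rintro x ⟨i, hi, rfl⟩; exact ⟨i, by omega, rfl⟩)

theorem BC_mono {m N N' : ℕ} (h : N ≤ N') : BC m N ≤ BC m N' :=
  Subgroup.closure_mono (by rintro x ⟨i, hm, hi, rfl⟩; exact ⟨i, hm, by omega, rfl⟩)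

theorem comm_s {i j : ℕ} (h : i + 2 ≤ j ∨ j + 2 ≤ i) : Commute (s i) (s j) := by
  rcases h with h | h
  · exact s_comm h
  · exact (s_comm h).symm

/-! ### The braids `dn` and `up` -/

theorem dn_zero (i : ℕ) : dn i 0 = 1 := rfl
theorem dn_succ (i t : ℕ) : dn i (t + 1) = s (i + t) * dn i t := rfl
theorem up_zero (i : ℕ) : up i 0 = 1 := rfl
theorem up_succ (i t : ℕ) : up i (t + 1) = up i t * s (i + t) := rfl

theorem dn_succ' (i t : ℕ) : dn i (t + 1) = dn (i + 1) t * s i := by
  induction t with
  | zero => simp [dn_succ, dn_zero]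
  | succ t ih =>
    rw [dn_succ i (t + 1), ih, dn_succ (i + 1) t, ← mul_assoc]
    congr 3
    omega

theorem up_succ' (i t : ℕ) : up i (t + 1) = s i * up (i + 1) t := by
  induction t with
  | zero => simp [up_succ, up_zero]
  | succ t ih =>
    rw [up_succ i (t + 1), ih, up_succ (i + 1) t, ← mul_assoc]
    congr 2
    omega

/-- `dn i t` commutes with everything which commutes with all its letters. -/
theorem comm_dn {x : Br} {i t : ℕ} (h : ∀ j, i ≤ j → j < i + t → Commute x (s j)) :
    Commute x (dn i t) := by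
  induction t with
  | zero => rw [dn_zero]; exact Commute.one_right x
  | succ t ih =>
    rw [dn_succ]
    exact (h _ (by omega) (by omega)).mul_right (ih fun j h1 h2 => h j h1 (by omega))

theorem comm_up {x : Br} {i t : ℕ} (h : ∀ j, i ≤ j → j < i + t → Commute x (s j)) :
    Commute x (up i t) := by
  induction t with
  | zero => rw [up_zero]; exact Commute.one_right x
  | succ t ih =>
    rw [up_succ]
    exact (ih fun j h1 h2 => h j h1 (by omega)).mul_right (h _ (by omega) (by omega))

theorem up_mem_BC {m i t N : ℕ} (h : m ≤ i) (hN : i + t < N) : up i t ∈ BC m N := by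
  induction t with
  | zero => rw [up_zero]; exact one_mem _
  | succ t ih =>
    rw [up_succ]
    exact mul_mem (ih (by omega)) (s_mem_BC (by omega) (by omega))

/-- `s j * dn i t = dn i t * s (j + 1)`. -/
theorem s_dn (i t j : ℕ) (h : i ≤ j) (h' : j + 1 < i + t) : s j * dn i t = dn i t * s (j + 1) := by
  induction t with
  | zero => omega
  | succ t ih =>
    rcases Nat.lt_or_ge (j + 1) (i + t) with h1 | h1
    · rw [dn_succ, ← mul_assoc, (comm_s (Or.inl (by omega)) : Commute (s j) (s (i + t))).eq,
        mul_assoc, ih h1, mul_assoc]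
    · have e : i + t = j + 1 := by omega
      rw [dn_succ, e]
      obtain ⟨t', rfl⟩ : ∃ t', t = t' + 1 := ⟨t - 1, by omega⟩
      have e' : i + t' = j := by omega
      rw [dn_succ, e']
      have hc : Commute (s (j + 1)) (dn i t') :=
        comm_dn fun l _ h2 => comm_s (Or.inr (by omega))
      calc s j * (s (j + 1) * (s j * dn i t')) = (s j * s (j + 1) * s j) * dn i t' := by
            simp only [mul_assoc]
        _ = (s (j + 1) * s j * s (j + 1)) * dn i t' := by rw [s_braid]
        _ = s (j + 1) * s j * (s (j + 1) * dn i t') := by simp only [mul_assoc]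
        _ = s (j + 1) * s j * (dn i t' * s (j + 1)) := by rw [hc.eq]
        _ = s (j + 1) * (s j * dn i t') * s (j + 1) := by simp only [mul_assoc]

/-- `up i t * s j = s (j + 1) * up i t`. -/
theorem up_s (i t j : ℕ) (h : i ≤ j) (h' : j + 1 < i + t) : up i t * s j = s (j + 1) * up i t := by
  induction t with
  | zero => omega
  | succ t ih =>
    rcases Nat.lt_or_ge (j + 1) (i + t) with h1 | h1
    · rw [up_succ, mul_assoc, ← (comm_s (Or.inl (by omega)) : Commute (s j) (s (i + t))).eq,
        ← mul_assoc, ih h1, mul_assoc]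
    · have e : i + t = j + 1 := by omega
      rw [up_succ, e]
      obtain ⟨t', rfl⟩ : ∃ t', t = t' + 1 := ⟨t - 1, by omega⟩
      have e' : i + t' = j := by omega
      rw [up_succ, e']
      have hc : Commute (s (j + 1)) (up i t') :=
        comm_up fun l _ h2 => comm_s (Or.inr (by omega))
      calc up i t' * s j * s (j + 1) * s j = up i t' * (s j * s (j + 1) * s j) := by
            simp only [mul_assoc]
        _ = up i t' * (s (j + 1) * s j * s (j + 1)) := by rw [s_braid]
        _ = (up i t' * s (j + 1)) * s j * s (j + 1) := by simp only [mul_assoc]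
        _ = (s (j + 1) * up i t') * s j * s (j + 1) := by rw [hc.eq]
        _ = s (j + 1) * (up i t' * s j * s (j + 1)) := by simp only [mul_assoc]

/-! ### `psiK` on generators -/

theorem psiK_zero (m : ℕ) (y : Br) : psiK m 0 y = y := rfl
theorem psiK_succ (m k : ℕ) (y : Br) : psiK m (k + 1) y = psi m (psiK m k y) := rfl

theorem psi_lt {m i : ℕ} (h : i + 1 < m) : psi m (s i) = s i := by rw [psi_s, if_pos h]

theorem psi_ge {m i : ℕ} (h : m ≤ i) : psi m (s i) = s (i + 1) := by
  rw [psi_s, if_neg (by omega), if_neg (by omega)]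

theorem psi_eq (i : ℕ) : psi (i + 1) (s i) = s (i + 1) * s i * (s (i + 1))⁻¹ := by
  rw [psi_s, if_neg (by omega), if_pos rfl]

theorem psiK_lt {m i : ℕ} (k : ℕ) (h : i + 1 < m) : psiK m k (s i) = s i := by
  induction k with
  | zero => rfl
  | succ k ih => rw [psiK_succ, ih, psi_lt h]

theorem psiK_ge {m i : ℕ} (k : ℕ) (h : m ≤ i) : psiK m k (s i) = s (i + k) := by
  induction k with
  | zero => rfl
  | succ k ih => rw [psiK_succ, ih, psi_ge (by omega)]; rfl

theorem psi_dn (m t : ℕ) : psi m (dn m t) = dn (m + 1) t := by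
  induction t with
  | zero => rw [dn_zero, dn_zero, map_one]
  | succ t ih =>
    rw [dn_succ, map_mul, ih, psi_ge (by omega), dn_succ]
    congr 2
    omega

theorem psiK_eq (i k : ℕ) :
    psiK (i + 1) k (s i) = dn (i + 1) k * s i * (dn (i + 1) k)⁻¹ := by
  induction k with
  | zero => simp [psiK_zero, dn_zero]
  | succ k ih =>
    rw [psiK_succ, ih, map_mul, map_mul, map_inv, psi_dn, psi_eq, dn_succ']
    group

/-! ### The claims -/

theorem psiK_add (m a b : ℕ) (y : Br) : psiK m (a + b) y = psiK m a (psiK m b y) := by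
  induction a with
  | zero => rw [Nat.zero_add, psiK_zero]
  | succ a ih => rw [show a + 1 + b = a + b + 1 by omega, psiK_succ, ih, psiK_succ]

theorem psi_mem_BN {m k' : ℕ} {y : Br} (hy : y ∈ BN (m + k')) : psi m y ∈ BN (m + k' + 1) := by
  refine bn_ind (P := fun y => psi m y ∈ BN (m + k' + 1)) ?_ ?_ ?_ ?_ y hy
  · intro i hi
    rcases lt_trichotomy (i + 1) m with h | h | h
    · rw [psi_lt h]
      exact s_mem_BN (by omega)
    · subst h
      rw [psi_eq]
      exact mul_mem (mul_mem (s_mem_BN (by omega)) (s_mem_BN (by omega)))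
        (inv_mem (s_mem_BN (by omega)))
    · rw [psi_ge (by omega)]
      exact s_mem_BN (by omega)
  · simp [one_mem]
  · intro x y hx hy
    rw [map_mul]
    exact mul_mem hx hy
  · intro x hx
    rw [map_inv]
    exact inv_mem hx

theorem psiK_mem_BN {m k k' : ℕ} {y : Br} (hy : y ∈ BN (m + k')) :
    psiK m k y ∈ BN (m + k + k') := by
  induction k with
  | zero => simpa [psiK_zero] using hy
  | succ k ih =>
    rw [psiK_succ, show m + (k + 1) + k' = m + (k + k') + 1 by omega]
    exact psi_mem_BN (by rwa [show m + (k + k') = m + k + k' by omega])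

theorem comm_psiK {m k : ℕ} {g : Br} (y : Br) (hg : g ∈ BC m (m + k)) :
    Commute g (psiK m k y) := by
  refine bc_ind (P := fun g => Commute g (psiK m k y)) ?_ ?_ ?_ ?_ g hg
  · intro j h1 h2
    refine br_ind (P := fun y => Commute (s j) (psiK m k y)) ?_ ?_ ?_ ?_ y
    · intro i
      rcases lt_trichotomy (i + 1) m with h | h | h
      · rw [psiK_lt k h]
        exact comm_s (Or.inr (by omega))
      · subst h
        rw [psiK_eq]
        have e := s_dn (i + 1) k j h1 h2
        have hc : Commute (s (j + 1)) (s i) := comm_s (Or.inr (by omega))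
        have e2 : (dn (i + 1) k)⁻¹ * s j = s (j + 1) * (dn (i + 1) k)⁻¹ := by
          rw [inv_mul_eq_iff_eq_mul, ← mul_assoc, ← e, mul_assoc, mul_inv_cancel, mul_one]
        show s j * (dn (i + 1) k * s i * (dn (i + 1) k)⁻¹) =
          dn (i + 1) k * s i * (dn (i + 1) k)⁻¹ * s j
        rw [mul_assoc (dn (i + 1) k * s i), e2, ← mul_assoc, ← mul_assoc, e,
          mul_assoc (dn (i + 1) k), hc.eq]
        simp only [mul_assoc]
      · rw [psiK_ge k (by omega)]
        exact comm_s (Or.inl (by omega))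
    · rw [map_one]; exact Commute.one_right _
    · intro x y hx hy
      rw [map_mul]
      exact hx.mul_right hy
    · intro x hx
      rw [map_inv]
      exact hx.inv_right
  · exact Commute.one_left _
  · intro x y hx hy
    exact hx.mul_left hy
  · intro x hx
    exact hx.inv_left

theorem comm_psiK' {m k N : ℕ} {x g : Br} (hx : x ∈ BN (m + k)) (hg : g ∈ BC m N) :
    Commute x (psiK m k g) := by
  refine bc_ind (P := fun g => Commute x (psiK m k g)) ?_ ?_ ?_ ?_ g hg
  · intro i h1 h2
    rw [psiK_ge k h1]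
    refine bn_ind (P := fun x => Commute x (s (i + k))) ?_ ?_ ?_ ?_ x hx
    · intro j hj
      exact comm_s (Or.inl (by omega))
    · exact Commute.one_left _
    · intro x y hx hy
      exact hx.mul_left hy
    · intro x hx
      exact hx.inv_left
  · rw [map_one]; exact Commute.one_right _
  · intro x y hx hy
    rw [map_mul]
    exact hx.mul_right hy
  · intro x hx
    rw [map_inv]
    exact hx.inv_right

theorem io_zero (m a : ℕ) : io m 0 a = a := by simp [io]

theorem io_succ (m k a : ℕ) : io m (k + 1) a = io m 1 (io m k a) := by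
  unfold io
  split_ifs <;> omega

theorem pm_psi_io (m : ℕ) (y : Br) : ∀ a, pm (psi m y) (io m 1 a) = io m 1 (pm y a) := by
  refine br_ind (P := fun y => ∀ a, pm (psi m y) (io m 1 a) = io m 1 (pm y a)) ?_ ?_ ?_ ?_ y
  · intro i a
    rcases lt_trichotomy (i + 1) m with h | h | h
    · rw [psi_lt h, pm_s]
      simp only [io, Equiv.swap_apply_def]
      split_ifs <;> omega
    · subst h
      rw [psi_eq, map_mul, map_mul, map_inv, pm_s, pm_s, Equiv.swap_inv]
      simp only [Equiv.Perm.mul_apply, io, Equiv.swap_apply_def]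
      split_ifs <;> omega
    · rw [psi_ge (by omega), pm_s, pm_s]
      simp only [io, Equiv.swap_apply_def]
      split_ifs <;> omega
  · intro a; simp
  · intro x y hx hy a
    rw [map_mul, map_mul, map_mul, Equiv.Perm.mul_apply, Equiv.Perm.mul_apply, hy, hx]
  · intro x hx a
    rw [map_inv, map_inv, map_inv, Equiv.Perm.inv_eq_iff_eq, hx]
    simp

theorem pm_psi_m (m : ℕ) (y : Br) : pm (psi m y) m = m := by
  refine br_ind (P := fun y => pm (psi m y) m = m) ?_ ?_ ?_ ?_ y
  · intro i
    rcases lt_trichotomy (i + 1) m with h | h | h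
    · rw [psi_lt h, pm_s]
      simp only [Equiv.swap_apply_def]
      split_ifs <;> omega
    · subst h
      rw [psi_eq, map_mul, map_mul, map_inv, pm_s, pm_s, Equiv.swap_inv]
      simp only [Equiv.Perm.mul_apply, Equiv.swap_apply_def]
      split_ifs <;> omega
    · rw [psi_ge (by omega), pm_s]
      simp only [Equiv.swap_apply_def]
      split_ifs <;> omega
  · simp
  · intro x y hx hy
    rw [map_mul, map_mul, Equiv.Perm.mul_apply, hy, hx]
  · intro x hx
    rw [map_inv, map_inv, Equiv.Perm.inv_eq_iff_eq, hx]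

theorem pm_psiK_io (m k : ℕ) (y : Br) (a : ℕ) :
    pm (psiK m k y) (io m k a) = io m k (pm y a) := by
  induction k with
  | zero => rw [psiK_zero, io_zero, io_zero]
  | succ k ih => rw [psiK_succ, io_succ, pm_psi_io, ih, ← io_succ]

theorem pm_psiK_fix (m k : ℕ) (y : Br) : ∀ a, m ≤ a → a < m + k → pm (psiK m k y) a = a := by
  induction k with
  | zero => intro a h1 h2; omega
  | succ k ih =>
    intro a h1 h2
    rw [psiK_succ]
    rcases Nat.eq_or_lt_of_le h1 with h | h
    · subst h
      exact pm_psi_m _ _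
    · have e : io m 1 (a - 1) = a := by unfold io; split_ifs <;> omega
      have := pm_psi_io m (psiK m k y) (a - 1)
      rw [e, ih (a - 1) (by omega) (by omega), e] at this
      exact this

theorem BN_comm_up {a t : ℕ} {x : Br} (hx : x ∈ BN a) : Commute x (up a t) := by
  refine bn_ind (P := fun x => Commute x (up a t)) ?_ ?_ ?_ ?_ x hx
  · intro j hj
    exact comm_up fun l h1 _ => comm_s (Or.inl (by omega))
  · exact Commute.one_left _
  · intro x y hx hy
    exact hx.mul_left hy
  · intro x hx
    exact hx.inv_left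

theorem psiK_conj {m k k' : ℕ} {y : Br} (hy : y ∈ BN (m + k')) :
    psiK m (k + 1) y = up (m + k) k' * psiK m k y * (up (m + k) k')⁻¹ := by
  refine bn_ind
    (P := fun y => psiK m (k + 1) y = up (m + k) k' * psiK m k y * (up (m + k) k')⁻¹)
    ?_ ?_ ?_ ?_ y hy
  · intro i hi
    rcases lt_trichotomy (i + 1) m with h | h | h
    · rw [psiK_lt _ h, psiK_lt _ h]
      have hc : Commute (s i) (up (m + k) k') :=
        comm_up fun l h1 _ => comm_s (Or.inl (by omega))
      rw [← hc.eq, mul_inv_cancel_right]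
    · subst h
      obtain ⟨t, rfl⟩ : ∃ t, k' = t + 1 := ⟨k' - 1, by omega⟩
      have hm : psiK (i + 1) k (s i) ∈ BN (i + 1 + k + 1) :=
        psiK_mem_BN (k' := 1) (s_mem_BN (by omega))
      have hc : Commute (psiK (i + 1) k (s i)) (up (i + 1 + k + 1) t) := BN_comm_up hm
      rw [up_succ', mul_assoc (s (i + 1 + k)), ← hc.eq, psiK_eq, psiK_eq, dn_succ]
      group
    · rw [psiK_ge _ (by omega), psiK_ge _ (by omega),
        up_s (m + k) k' (i + k) (by omega) (by omega), mul_inv_cancel_right]
      rfl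
  · simp
  · intro x y hx hy
    rw [map_mul, map_mul, hx, hy]
    group
  · intro x hx
    rw [map_inv, map_inv, hx]
    group

theorem psiK_inner (m k k' : ℕ) :
    ∃ W ∈ BC m (m + k + k'), ∀ y ∈ BN (m + k'), psiK m k y = W * y * W⁻¹ := by
  induction k with
  | zero => exact ⟨1, one_mem _, fun y _ => by simp [psiK_zero]⟩
  | succ k ih =>
    obtain ⟨W, hW, h⟩ := ih
    refine ⟨up (m + k) k' * W, mul_mem (up_mem_BC (by omega) (by omega))
      (BC_mono (by omega) hW), fun y hy => ?_⟩
    rw [psiK_conj hy, h y hy]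
    group

theorem psiK_mem_PN {m k k' : ℕ} {y : Br} (hy : y ∈ PN (m + k')) :
    psiK m k y ∈ PN (m + k + k') := by
  refine Subgroup.mem_inf.mpr ⟨?_, psiK_mem_BN (Subgroup.mem_inf.mp hy).2⟩
  have h1 : pm y = 1 := (Subgroup.mem_inf.mp hy).1
  show pm (psiK m k y) = 1
  ext a
  rw [Equiv.Perm.one_apply]
  rcases Nat.lt_or_ge a m with h | h
  · have e : io m k a = a := by unfold io; split_ifs; rfl
    have := pm_psiK_io m k y a
    rw [h1, Equiv.Perm.one_apply, e] at this
    exact this
  · rcases Nat.lt_or_ge a (m + k) with h' | h'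
    · exact pm_psiK_fix m k y a h h'
    · have e : io m k (a - k) = a := by unfold io; split_ifs <;> omega
      have := pm_psiK_io m k y (a - k)
      rw [h1, Equiv.Perm.one_apply, e] at this
      exact this

theorem psiK_map_Gam (m k k' n : ℕ) :
    (Gam (m + k') n).map (psiK m k) ≤ Gam (m + k + k') n := by
  have hP : (PN (m + k')).map (psiK m k) ≤ PN (m + k + k') := by
    rintro _ ⟨y, hy, rfl⟩
    exact psiK_mem_PN hy
  induction n with
  | zero => exact hP
  | succ n ih =>
    show (⁅Gam (m + k') n, PN (m + k')⁆).map (psiK m k) ≤ ⁅Gam (m + k + k') n, PN (m + k + k')⁆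
    rw [Subgroup.map_commutator]
    exact Subgroup.commutator_mono ih hP

theorem psiK_psi (m k : ℕ) (y : Br) : psiK (m + 1) k (psi m y) = psiK m (k + 1) y := by
  have : (psiK (m + 1) k).comp (psi m) = psiK m (k + 1) := by
    refine hom_ext fun i => ?_
    rw [MonoidHom.comp_apply]
    rcases lt_trichotomy (i + 1) m with h | h | h
    · rw [psi_lt h, psiK_lt _ h, psiK_lt _ (by omega)]
    · subst h
      rw [psi_eq, map_mul, map_mul, map_inv, psiK_eq, psiK_eq, psiK_lt _ (by omega), dn_succ']
      have hc : Commute (s i) (dn (i + 1 + 1) k) :=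
        comm_dn fun l h1 _ => comm_s (Or.inl (by omega))
      have hc' : (dn (i + 1 + 1) k)⁻¹ * s i * dn (i + 1 + 1) k = s i := by
        rw [mul_assoc, hc.eq, inv_mul_cancel_left]
      calc dn (i + 1 + 1) k * s (i + 1) * (dn (i + 1 + 1) k)⁻¹ * s i *
            (dn (i + 1 + 1) k * s (i + 1) * (dn (i + 1 + 1) k)⁻¹)⁻¹
          = dn (i + 1 + 1) k * s (i + 1) * ((dn (i + 1 + 1) k)⁻¹ * s i * dn (i + 1 + 1) k) *
              (s (i + 1))⁻¹ * (dn (i + 1 + 1) k)⁻¹ := by group
        _ = dn (i + 1 + 1) k * s (i + 1) * s i * (s (i + 1))⁻¹ * (dn (i + 1 + 1) k)⁻¹ := by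
            rw [hc']
        _ = dn (i + 1 + 1) k * s (i + 1) * s i * (dn (i + 1 + 1) k * s (i + 1))⁻¹ := by group
    · rw [psi_ge (by omega), psiK_ge _ (by omega), psiK_ge _ (by omega)]
      congr 1
      omega
  exact congrArg (fun f => f y) this

/-- T1. -/
theorem t_PSI : S_PSI :=
  ⟨psiK_add, fun _ _ _ _ hy => psiK_mem_BN hy, fun _ _ _ y hg => comm_psiK y hg,
    fun _ _ _ _ _ hx hg => comm_psiK' hx hg, pm_psiK_io, pm_psiK_fix,
    fun _ _ _ _ hy => psiK_conj hy, psiK_inner,
    fun m k k' n y hy => psiK_map_Gam m k k' n ⟨y, hy, rfl⟩, psiK_psi⟩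

end Pool.Agent.K1H36.LK
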