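import Pool.Agent.K1H36.LK.Psi

/-!
# Task T3 of MP_5b16f0_gt: the pure braid group is generated by the standard generators
-/

set_option autoImplicit false

namespace Pool.Agent.K1H36.LK

open Pool.Agent.K1H35.LK

/-- The subgroup generated by the standard generators which link a strand with the strand `n`. -/
def UU (n : ℕ) : Subgroup Br := Subgroup.closure {x | ∃ i t, i + 1 + t = n ∧ x = Ag i t}

theorem Ag_mem {i t n : ℕ} (h : i + 1 + t = n) : Ag i t ∈ UU n :=
  Subgroup.subset_closure ⟨i, t, h, rfl⟩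

section
variable {G : Type*} [Group G]

theorem rel1 {a b : G} (h : a * b * a = b * a * b) : a * b * a⁻¹ = b⁻¹ * a * b := by
  calc a * b * a⁻¹ = b⁻¹ * (b * a * b) * a⁻¹ := by group
    _ = b⁻¹ * (a * b * a) * a⁻¹ := by rw [h]
    _ = b⁻¹ * a * b := by group

theorem rel2 {a b : G} (h : a * b * a = b * a * b) : a⁻¹ * b * a = b * a * b⁻¹ := by
  calc a⁻¹ * b * a = a⁻¹ * (b * a * b) * b⁻¹ := by group
    _ = a⁻¹ * (a * b * a) * b⁻¹ := by rw [h]
    _ = b * a * b⁻¹ := by group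

/-- Conjugation formulas. -/
theorem conj1 {a b D : G} (h : a * b * a = b * a * b) (hD : Commute a D) :
    a⁻¹ * (D * b ^ 2 * D⁻¹) * a = (D * b) * a ^ 2 * (D * b)⁻¹ := by
  have e1 : a⁻¹ * D = D * a⁻¹ := hD.inv_left.eq
  have e2 : D⁻¹ * a = a * D⁻¹ := hD.symm.inv_left.eq
  calc a⁻¹ * (D * b ^ 2 * D⁻¹) * a = (a⁻¹ * D) * b ^ 2 * (D⁻¹ * a) := by group
    _ = D * (a⁻¹ * b * a) * (a⁻¹ * b * a) * D⁻¹ := by rw [e1, e2]; simp only [pow_two]; group
    _ = D * (b * a * b⁻¹) * (b * a * b⁻¹) * D⁻¹ := by rw [rel2 h]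
    _ = (D * b) * a ^ 2 * (D * b)⁻¹ := by simp only [pow_two]; group

theorem conj2 {a b D : G} (h : a * b * a = b * a * b) (hD : Commute a D) :
    a * (D * b ^ 2 * D⁻¹) * a⁻¹ =
      (D * b ^ 2 * D⁻¹)⁻¹ * ((D * b) * a ^ 2 * (D * b)⁻¹) * (D * b ^ 2 * D⁻¹) := by
  have e1 : a * D = D * a := hD.eq
  have e2 : D⁻¹ * a⁻¹ = a⁻¹ * D⁻¹ := (hD.inv_left.inv_right).symm.eq
  calc a * (D * b ^ 2 * D⁻¹) * a⁻¹ = (a * D) * b ^ 2 * (D⁻¹ * a⁻¹) := by group
    _ = D * (a * b * a⁻¹) * (a * b * a⁻¹) * D⁻¹ := by rw [e1, e2]; simp only [pow_two]; group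
    _ = D * (b⁻¹ * a * b) * (b⁻¹ * a * b) * D⁻¹ := by rw [rel1 h]
    _ = (D * b ^ 2 * D⁻¹)⁻¹ * ((D * b) * a ^ 2 * (D * b)⁻¹) * (D * b ^ 2 * D⁻¹) := by
      simp only [pow_two]; group

end

theorem conj_gen {n j i t : ℕ} (hj : j + 1 < n) (hi : i + 1 + t = n) :
    s j * Ag i t * (s j)⁻¹ ∈ UU n ∧ (s j)⁻¹ * Ag i t * s j ∈ UU n := by
  have fix : Commute (s j) (Ag i t) →
      s j * Ag i t * (s j)⁻¹ ∈ UU n ∧ (s j)⁻¹ * Ag i t * s j ∈ UU n := by
    intro hc
    rw [hc.eq, mul_inv_cancel_right, mul_assoc, ← hc.eq, inv_mul_cancel_left]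
    exact ⟨Ag_mem hi, Ag_mem hi⟩
  rcases Nat.lt_or_ge i j with h | h
  · -- `i + 1 ≤ j`
    apply fix
    have e := s_dn (i + 1) t j (by omega) (by omega)
    have e2 : (dn (i + 1) t)⁻¹ * s j = s (j + 1) * (dn (i + 1) t)⁻¹ := by
      rw [inv_mul_eq_iff_eq_mul, ← mul_assoc, ← e, mul_assoc, mul_inv_cancel, mul_one]
    have hc : Commute (s (j + 1)) (s i ^ 2) := (comm_s (Or.inr (by omega))).pow_right 2
    show s j * (dn (i + 1) t * s i ^ 2 * (dn (i + 1) t)⁻¹) =
      dn (i + 1) t * s i ^ 2 * (dn (i + 1) t)⁻¹ * s j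
    rw [mul_assoc (dn (i + 1) t * s i ^ 2), e2, ← mul_assoc, ← mul_assoc, e,
      mul_assoc (dn (i + 1) t), hc.eq]
    simp only [mul_assoc]
  · rcases Nat.lt_or_ge i (j + 2) with h' | h'
    · have key : ∀ t, j + 1 + 1 + t = n →
          (s j)⁻¹ * Ag (j + 1) t * s j = Ag j (t + 1) ∧
          s j * Ag (j + 1) t * (s j)⁻¹ =
            (Ag (j + 1) t)⁻¹ * Ag j (t + 1) * Ag (j + 1) t := by
        intro t _
        have hD : Commute (s j) (dn (j + 1 + 1) t) :=
          comm_dn fun l h1 _ => comm_s (Or.inl (by omega))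
        have hb := s_braid j
        unfold Ag
        rw [dn_succ' (j + 1) t]
        exact ⟨conj1 hb hD, conj2 hb hD⟩
      rcases Nat.eq_or_lt_of_le h with h1 | h1
      · -- `i = j`
        subst h1
        obtain ⟨t', rfl⟩ : ∃ t', t = t' + 1 := ⟨t - 1, by omega⟩
        obtain ⟨k1, k2⟩ := key t' (by omega)
        have hX : Ag (j + 1) t' ∈ UU n := Ag_mem (by omega)
        have hY : Ag j (t' + 1) ∈ UU n := Ag_mem (by omega)
        constructor
        · have : s j * Ag j (t' + 1) * (s j)⁻¹ = Ag (j + 1) t' := by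
            rw [← k1]; group
          rw [this]; exact hX
        · have : (s j)⁻¹ * Ag j (t' + 1) * s j =
              Ag j (t' + 1) * Ag (j + 1) t' * (Ag j (t' + 1))⁻¹ := by
            have h3 : Ag (j + 1) t' =
                ((s j)⁻¹ * Ag (j + 1) t' * s j)⁻¹ * ((s j)⁻¹ * Ag j (t' + 1) * s j) *
                  ((s j)⁻¹ * Ag (j + 1) t' * s j) := by
              calc Ag (j + 1) t' = (s j)⁻¹ * (s j * Ag (j + 1) t' * (s j)⁻¹) * s j := by group
                _ = (s j)⁻¹ * ((Ag (j + 1) t')⁻¹ * Ag j (t' + 1) * Ag (j + 1) t') * s j := by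
                    rw [k2]
                _ = _ := by group
            rw [k1] at h3
            calc (s j)⁻¹ * Ag j (t' + 1) * s j
                = Ag j (t' + 1) * ((Ag j (t' + 1))⁻¹ * ((s j)⁻¹ * Ag j (t' + 1) * s j) *
                    Ag j (t' + 1)) * (Ag j (t' + 1))⁻¹ := by group
              _ = _ := by rw [← h3]
          rw [this]
          exact mul_mem (mul_mem hY hX) (inv_mem hY)
      · -- `i = j + 1`
        obtain rfl : i = j + 1 := by omega
        obtain ⟨k1, k2⟩ := key t hi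
        have hX : Ag (j + 1) t ∈ UU n := Ag_mem (by omega)
        have hY : Ag j (t + 1) ∈ UU n := Ag_mem (by omega)
        rw [k1, k2]
        exact ⟨mul_mem (mul_mem (inv_mem hX) hY) hX, hY⟩
    · apply fix
      have hD : Commute (s j) (dn (i + 1) t) :=
        comm_dn fun l h1 _ => comm_s (Or.inl (by omega))
      have hc : Commute (s j) (s i ^ 2) := (comm_s (Or.inl (by omega))).pow_right 2
      exact (hD.mul_right hc).mul_right hD.inv_right

theorem conj_UU {n : ℕ} {g : Br} (hg : g ∈ BN n) :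
    ∀ u ∈ UU n, g * u * g⁻¹ ∈ UU n ∧ g⁻¹ * u * g ∈ UU n := by
  refine bn_ind (P := fun g => ∀ u ∈ UU n, g * u * g⁻¹ ∈ UU n ∧ g⁻¹ * u * g ∈ UU n)
    ?_ ?_ ?_ ?_ g hg
  · intro j hj u hu
    induction hu using Subgroup.closure_induction with
    | mem x hx =>
      obtain ⟨i, t, hi, rfl⟩ := hx
      exact conj_gen hj hi
    | one =>
      simp [one_mem]
    | mul x y _ _ hx hy =>
      refine ⟨?_, ?_⟩
      · have : s j * (x * y) * (s j)⁻¹ = (s j * x * (s j)⁻¹) * (s j * y * (s j)⁻¹) := by group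
        rw [this]; exact mul_mem hx.1 hy.1
      · have : (s j)⁻¹ * (x * y) * s j = ((s j)⁻¹ * x * s j) * ((s j)⁻¹ * y * s j) := by group
        rw [this]; exact mul_mem hx.2 hy.2
    | inv x _ hx =>
      refine ⟨?_, ?_⟩
      · have : s j * x⁻¹ * (s j)⁻¹ = (s j * x * (s j)⁻¹)⁻¹ := by group
        rw [this]; exact inv_mem hx.1
      · have : (s j)⁻¹ * x⁻¹ * s j = ((s j)⁻¹ * x * s j)⁻¹ := by group
        rw [this]; exact inv_mem hx.2
  · intro u hu
    simpa using hu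
  · intro x y hx hy u hu
    refine ⟨?_, ?_⟩
    · have : x * y * u * (x * y)⁻¹ = x * (y * u * y⁻¹) * x⁻¹ := by group
      rw [this]; exact (hx _ (hy u hu).1).1
    · have : (x * y)⁻¹ * u * (x * y) = y⁻¹ * (x⁻¹ * u * x) * y := by group
      rw [this]; exact (hy _ (hx u hu).2).2
  · intro x hx u hu
    rw [inv_inv]
    exact ⟨(hx u hu).2, (hx u hu).1⟩

/-- `(s (l+1) ⋯ s (n-1))⁻¹ * s l ^ 2 * (s (l+1) ⋯ s (n-1))` is in `UU n`. -/
theorem xl_mem (t : ℕ) : ∀ l n, l + 1 + t = n → (up (l + 1) t)⁻¹ * s l ^ 2 * up (l + 1) t ∈ UU n := by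
  induction t with
  | zero =>
    intro l n h
    have : (up (l + 1) 0)⁻¹ * s l ^ 2 * up (l + 1) 0 = Ag l 0 := by
      simp [Ag, up_zero, dn_zero]
    rw [this]
    exact Ag_mem h
  | succ t ih =>
    intro l n h
    have h1 := ih (l + 1) n (by omega)
    have h2 := (conj_UU (n := n) (s_mem_BN (i := l) (by omega)) _ h1).1
    have hD : Commute (s l) (up (l + 1 + 1) t) :=
      comm_up fun k hk _ => comm_s (Or.inl (by omega))
    have hb := s_braid l
    have e : s l * ((up (l + 1 + 1) t)⁻¹ * s (l + 1) ^ 2 * up (l + 1 + 1) t) * (s l)⁻¹ =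
        (up (l + 1) (t + 1))⁻¹ * s l ^ 2 * up (l + 1) (t + 1) := by
      rw [up_succ']
      have e1 : s l * (up (l + 1 + 1) t)⁻¹ = (up (l + 1 + 1) t)⁻¹ * s l := hD.inv_right.eq
      have e2 : up (l + 1 + 1) t * (s l)⁻¹ = (s l)⁻¹ * up (l + 1 + 1) t := hD.inv_left.symm.eq
      calc s l * ((up (l + 1 + 1) t)⁻¹ * s (l + 1) ^ 2 * up (l + 1 + 1) t) * (s l)⁻¹
          = (s l * (up (l + 1 + 1) t)⁻¹) * s (l + 1) ^ 2 * (up (l + 1 + 1) t * (s l)⁻¹) := by
            group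
        _ = (up (l + 1 + 1) t)⁻¹ * (s l * s (l + 1) * (s l)⁻¹) * (s l * s (l + 1) * (s l)⁻¹) *
              up (l + 1 + 1) t := by rw [e1, e2]; simp only [pow_two]; group
        _ = (up (l + 1 + 1) t)⁻¹ * ((s (l + 1))⁻¹ * s l * s (l + 1)) *
              ((s (l + 1))⁻¹ * s l * s (l + 1)) * up (l + 1 + 1) t := by rw [rel1 hb]
        _ = _ := by simp only [pow_two]; group
    rw [← e]
    exact h2

theorem coset (n : ℕ) (b : Br) (hb : b ∈ BN (n + 1)) :
    ∃ l t, l + t = n ∧ ∃ u ∈ UU n, ∃ v ∈ BN n, b = up l t * (u * v) := by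
  -- left multiplication inside `UU n * BN n`
  have hQ : ∀ w ∈ BN n, ∀ u ∈ UU n, ∀ v ∈ BN n, ∃ u' ∈ UU n, ∃ v' ∈ BN n,
      w * (u * v) = u' * v' := fun w hw u hu v hv =>
    ⟨w * u * w⁻¹, (conj_UU hw u hu).1, w * v, mul_mem hw hv, by group⟩
  have hU : ∀ w ∈ UU n, ∀ u ∈ UU n, ∀ v ∈ BN n, ∃ u' ∈ UU n, ∃ v' ∈ BN n,
      w * (u * v) = u' * v' := fun w hw u hu v hv =>
    ⟨w * u, mul_mem hw hu, v, hv, by group⟩
  induction hb using Subgroup.closure_induction_left with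
  | one => exact ⟨n, 0, rfl, 1, one_mem _, 1, one_mem _, by simp [up_zero]⟩
  | mul_left x hx y _ ih =>
    obtain ⟨j, hj, rfl⟩ := hx
    obtain ⟨l, t, hlt, u, hu, v, hv, rfl⟩ := ih
    rcases Nat.lt_or_ge l j with h | h
    · -- `j ≥ l + 1`
      obtain ⟨j, rfl⟩ : ∃ j', j = j' + 1 := ⟨j - 1, by omega⟩
      obtain ⟨u', hu', v', hv', e⟩ := hQ (s j) (s_mem_BN (by omega)) u hu v hv
      refine ⟨l, t, hlt, u', hu', v', hv', ?_⟩
      rw [← mul_assoc, ← up_s l t j (by omega) (by omega), mul_assoc, e]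
    · rcases Nat.eq_or_lt_of_le h with h1 | h1
      · subst h1
        obtain ⟨t, rfl⟩ : ∃ t', t = t' + 1 := ⟨t - 1, by omega⟩
        obtain ⟨u', hu', v', hv', e⟩ := hU _ (xl_mem t j n (by omega)) u hu v hv
        refine ⟨j + 1, t, by omega, u', hu', v', hv', ?_⟩
        rw [← e, up_succ', pow_two]
        group
      · rcases Nat.lt_or_ge (j + 1) l with h2 | h2
        · obtain ⟨u', hu', v', hv', e⟩ := hQ (s j) (s_mem_BN (by omega)) u hu v hv
          refine ⟨l, t, hlt, u', hu', v', hv', ?_⟩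
          have hc : Commute (s j) (up l t) := comm_up fun k hk _ => comm_s (Or.inl (by omega))
          rw [← mul_assoc, hc.eq, mul_assoc, e]
        · obtain rfl : l = j + 1 := by omega
          refine ⟨j, t + 1, by omega, u, hu, v, hv, ?_⟩
          rw [up_succ', mul_assoc]
  | inv_mul_cancel x hx y _ ih =>
    obtain ⟨j, hj, rfl⟩ := hx
    obtain ⟨l, t, hlt, u, hu, v, hv, rfl⟩ := ih
    rcases Nat.lt_or_ge l j with h | h
    · obtain ⟨j, rfl⟩ : ∃ j', j = j' + 1 := ⟨j - 1, by omega⟩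
      obtain ⟨u', hu', v', hv', e⟩ := hQ (s j)⁻¹ (inv_mem (s_mem_BN (by omega))) u hu v hv
      refine ⟨l, t, hlt, u', hu', v', hv', ?_⟩
      rw [← e, inv_mul_eq_iff_eq_mul, ← mul_assoc, ← mul_assoc, ← mul_assoc,
        ← up_s l t j (by omega) (by omega)]
      group
    · rcases Nat.eq_or_lt_of_le h with h1 | h1
      · subst h1
        obtain ⟨t, rfl⟩ : ∃ t', t = t' + 1 := ⟨t - 1, by omega⟩
        refine ⟨j + 1, t, by omega, u, hu, v, hv, ?_⟩
        rw [up_succ', mul_assoc, inv_mul_cancel_left]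
      · rcases Nat.lt_or_ge (j + 1) l with h2 | h2
        · obtain ⟨u', hu', v', hv', e⟩ := hQ (s j)⁻¹ (inv_mem (s_mem_BN (by omega))) u hu v hv
          refine ⟨l, t, hlt, u', hu', v', hv', ?_⟩
          have hc : Commute (s j)⁻¹ (up l t) :=
            (comm_up fun k hk _ => comm_s (Or.inl (by omega)) : Commute (s j) (up l t)).inv_left
          rw [← mul_assoc, hc.eq, mul_assoc, e]
        · obtain rfl : l = j + 1 := by omega
          obtain ⟨u', hu', v', hv', e⟩ := hU _ (inv_mem (xl_mem t j n (by omega))) u hu v hv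
          refine ⟨j, t + 1, by omega, u', hu', v', hv', ?_⟩
          rw [← e, up_succ']
          group

theorem pm_up (l t : ℕ) : pm (up l t) (l + t) = l := by
  induction t with
  | zero => simp [up_zero]
  | succ t ih =>
    rw [up_succ, map_mul, Equiv.Perm.mul_apply, pm_s, ← add_assoc, Equiv.swap_apply_right, ih]

theorem pm_Ag (i t : ℕ) : pm (Ag i t) = 1 := by
  have h : Equiv.swap i (i + 1) ^ 2 = 1 := by
    rw [pow_two, Equiv.swap_mul_self]
  unfold Ag
  rw [map_mul, map_mul, map_pow, pm_s, h, mul_one, map_inv, mul_inv_cancel]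

theorem pm_UU {n : ℕ} {u : Br} (hu : u ∈ UU n) : pm u = 1 := by
  have : UU n ≤ pm.ker := by
    refine (Subgroup.closure_le _).mpr ?_
    rintro x ⟨i, t, _, rfl⟩
    exact pm_Ag i t
  exact this hu

theorem pm_BN {N : ℕ} {b : Br} (hb : b ∈ BN N) : ∀ a, N ≤ a → pm b a = a := by
  refine bn_ind (P := fun b => ∀ a, N ≤ a → pm b a = a) ?_ ?_ ?_ ?_ b hb
  · intro i hi a ha
    rw [pm_s, Equiv.swap_apply_def]
    split_ifs <;> omega
  · intro a _; simp
  · intro x y hx hy a ha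
    rw [map_mul, Equiv.Perm.mul_apply, hy a ha, hx a ha]
  · intro x hx a ha
    rw [map_inv, Equiv.Perm.inv_eq_iff_eq, hx a ha]

/-- T3. -/
theorem t_PURE : S_PURE := by
  intro N
  induction N with
  | zero =>
    intro x hx
    have h0 : x ∈ BN 0 := (Subgroup.mem_inf.mp hx).2
    have hb : BN 0 = ⊥ := by
      unfold BN
      rw [Subgroup.closure_eq_bot_iff]
      rintro x ⟨i, h, _⟩
      omega
    rw [hb, Subgroup.mem_bot] at h0
    rw [h0]
    exact one_mem _
  | succ n ih =>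
    intro b hb
    obtain ⟨hb1, hb2⟩ := Subgroup.mem_inf.mp hb
    have hb1' : pm b = 1 := hb1
    obtain ⟨l, t, hlt, u, hu, v, hv, rfl⟩ := coset n b hb2
    have hn : pm (up l t * (u * v)) n = n := by rw [hb1']; rfl
    rw [map_mul, map_mul, Equiv.Perm.mul_apply, Equiv.Perm.mul_apply, pm_BN hv n le_rfl,
      pm_UU hu, Equiv.Perm.one_apply, ← hlt, pm_up] at hn
    obtain rfl : t = 0 := by omega
    rw [up_zero, one_mul] at hb1' ⊢
    have hpv : pm v = 1 := by
      rw [map_mul, pm_UU hu, one_mul] at hb1'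
      exact hb1'
    refine mul_mem ?_ ?_
    · refine Subgroup.closure_mono ?_ hu
      rintro x ⟨i, t, hi, rfl⟩
      exact ⟨i, t, by omega, rfl⟩
    · have h1 : v ∈ PN n := Subgroup.mem_inf.mpr ⟨hpv, hv⟩
      refine Subgroup.closure_mono ?_ (ih h1)
      rintro x ⟨i, t, hi, rfl⟩
      exact ⟨i, t, by omega, rfl⟩

end Pool.Agent.K1H36.LK
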